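import Pool.Agent.Helper26.SQ.Coarse

/-!
T1: repeated blocks with the same set of colours.
-/

set_option autoImplicit false

namespace Pool.Agent.Helper26.SQ

open Pool.Agent.Helper3.DW

/-- The intermediate positions. -/
def SeqQ (n j a b c : ℕ) (P : Ps) : Prop :=
  ∃ F C : ℕ → Finset ℕ,
    Sys P (n + 1) F C (fun a b => decide (a < b)) (fun a b => decide (b < a)) ∧
    ∀ i, 1 ≤ i → i < n + 1 → c ≤ (C i).card ∧ Blk j a b P (F i)

theorem Blk.old {j a b : ℕ} {P P' : Ps} {N : Finset ℕ} (h : Blk j a b P N) (hs : P <:+ P')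
    (hl : ∀ y ∈ N, y < P.length) : Blk j a b P' N := by
  obtain ⟨C, h1, h2, h3, h4, h5⟩ := h
  refine ⟨C, h1, ?_, h3.old hs fun y hy => hl y (h1 hy), ?_, ?_⟩
  · intro y hy z hz hlt
    exact h2 y hy z hz ((plt_suffix hs (hl y (h1 hy)) (hl z hz)).1 hlt)
  · rw [colU_suffix hs hl, colU_suffix hs fun y hy => hl y (h1 hy)]
    exact h4
  · rw [colU_suffix hs fun y hy => hl y (h1 hy)]
    exact h5

/-- Old points below a repeated sequence belong to the junk. -/
theorem rep_below {n j a b w : ℕ} {P R : Ps} (hP : Good w P) (hR : Good w R)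
    (h : RepQ n j a b R) : RepQ n j a b (glue P (Finset.range P.length) ∅ R) := by
  obtain ⟨F, C, T, hS, hC⟩ := h
  have h1 := (sys_one' P).glu hS (fun _ => true) (fun _ => false) hP.lt_len hR.lt_len
  rw [(sys_one' P).un_all (fun _ _ => rfl), un_none (fun _ _ => rfl)] at h1
  have h2 := h1.coarse (q' := n + 1) (R' := fun a b => decide (a < b))
    (S' := fun a b => decide (b < a)) (fun a => a - 1) (by intro a ha; omega) (by
      intro a ha b hb hab
      simp only [decide_eq_true_eq] at hab
      by_cases h3 : a < 1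
      · simp [catR, h3, show ¬ b < 1 by omega]
      · simp only [catR, if_neg h3, if_neg (show ¬ b < 1 by omega), decide_eq_true_eq]
        exact hab) (by
      intro a ha b hb hab
      simp only [decide_eq_true_eq] at hab
      by_cases h3 : b < 1
      · simp [catS, h3, show ¬ a < 1 by omega]
      · simp only [catS, if_neg h3, if_neg (show ¬ a < 1 by omega), decide_eq_true_eq]
        exact hab)
  have key : ∀ i, 1 ≤ i → i < n + 1 → ∀ (G : ℕ → Finset ℕ),
      un (1 + (n + 1)) G (fun a => a - 1 == i) = G (i + 1) := by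
    intro i hi hi' G
    ext x
    rw [mem_un]
    constructor
    · rintro ⟨a, _, h4, h5⟩
      simp only [beq_iff_eq] at h4
      have : a = i + 1 := by omega
      rwa [← this]
    · intro hx
      exact ⟨i + 1, by omega, by simp, hx⟩
  refine ⟨_, _, T, h2, fun i hi hi' => ?_⟩
  obtain ⟨h4, h5⟩ := hC i hi hi'
  simp only [key i hi hi', catC, catF, if_neg (show ¬ i + 1 < 1 by omega), Nat.add_sub_cancel]
  exact ⟨h4, h5.new hP.lt_len (fun d hd => Finset.mem_range.1 hd) (by simp)⟩

theorem rep_zero (j a b : ℕ) (P : Ps) : RepQ 0 j a b P := by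
  refine ⟨fun _ => Finset.range P.length, fun _ => cols P, ∅, (sys_one' P).congr
    (fun _ _ => rfl) (fun _ _ => rfl) ?_ ?_, fun i h1 h2 => by omega⟩
  · intro a ha b hb hab
    simp only [decide_eq_true_eq] at hab
    omega
  · intro a ha b hb hab
    simp only [decide_eq_true_eq] at hab
    omega

theorem seq_succ {n j a b c w : ℕ} {P R : Ps} (hP : Good w P) (hR : Good w R)
    (h : SeqQ n j a b c P) (hc : c ≤ (cols R).card)
    (hB : Blk j a b R (Finset.range R.length)) :
    SeqQ (n + 1) j a b c (glue P (Finset.range P.length) ∅ R) := by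
  obtain ⟨F, C, hS, hC⟩ := h
  have h1 := hS.glu (sys_one' R) (fun _ => true) (fun _ => false) hP.lt_len hR.lt_len
  rw [hS.un_all (fun _ _ => rfl), un_none (fun _ _ => rfl)] at h1
  refine ⟨_, _, h1.congr (fun _ _ => rfl) (fun _ _ => rfl) ?_ ?_, fun i hi hi' => ?_⟩
  · intro a ha b hb hab
    simp only [decide_eq_true_eq] at hab
    by_cases h3 : b < n + 1
    · simp only [catR, if_pos h3, if_pos (show a < n + 1 by omega), decide_eq_true_eq]
      exact hab
    · simp [catR, h3, show a < n + 1 by omega]
  · intro a ha b hb hab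
    simp only [decide_eq_true_eq] at hab
    by_cases h3 : a < n + 1
    · simp only [catS, if_pos h3, if_pos (show b < n + 1 by omega), decide_eq_true_eq]
      exact hab
    · simp [catS, h3, show b < n + 1 by omega]
  · by_cases h3 : i < n + 1
    · obtain ⟨h4, h5⟩ := hC i hi h3
      simp only [catC, catF, if_pos h3]
      exact ⟨h4, h5.old (suffix_glue _ _ _ _) (hS.len h3)⟩
    · simp only [catC, catF, if_neg h3]
      exact ⟨hc, hB.new hP.lt_len (fun d hd => Finset.mem_range.1 hd) (by simp)⟩

theorem st_rep : ST_rep := by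
  intro k m j a b h n c
  rcases Nat.eq_zero_or_pos n with rfl | hn
  · exact Force.here _ (Or.inl (rep_zero j a b []))
  suffices hs : ∀ c, Force k m (fun P => RepQ n j a b P ∨ (c ≤ (cols P).card ∧
      Blk j a b P (Finset.range P.length))) [] from
    (hs c).imp fun P hP => hP.imp id fun h => h.1
  intro c
  induction c with
  | zero => exact h.imp fun P hP => Or.inr ⟨Nat.zero_le _, hP⟩
  | succ c ih =>
    have inner : ∀ i, Force k m (fun P => RepQ n j a b P ∨ SeqQ i j a b c P) [] := by
      intro i
      induction i with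
      | zero =>
        refine Force.here _ (Or.inr ⟨fun _ => Finset.range 0, fun _ => cols [],
          (sys_one' []).congr (fun _ _ => rfl) (fun _ _ => rfl) ?_ ?_, fun i h1 h2 => by omega⟩)
        · intro a ha b hb hab
          simp only [decide_eq_true_eq] at hab
          omega
        · intro a ha b hb hab
          simp only [decide_eq_true_eq] at hab
          omega
      | succ i ihi =>
        refine (ihi.inv (inv_nil k m)).bind fun P hP => ?_
        obtain ⟨hP1, hP2, _⟩ := hP
        rcases hP1 with hP1 | hP1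
        · exact Force.here _ (Or.inl hP1)
        · refine (Force.hole0 hP2 (hole_top hP2.good) ih).imp ?_
          rintro P' ⟨_, R, hR, hRI, rfl⟩
          rcases hR with hR | ⟨hR1, hR2⟩
          · exact Or.inl (rep_below hP2.good hRI.good hR)
          · exact Or.inr (seq_succ hP2.good hRI.good hP1 hR1 hR2)
    refine ((inner n).inv (inv_nil k m)).imp ?_
    rintro P ⟨hP1 | hP1, hP2, _⟩
    · exact Or.inl hP1
    · obtain ⟨F, C, hS, hC⟩ := hP1
      by_cases hc : c + 1 ≤ (cols P).card
      · refine Or.inr ⟨hc, (hC n hn (by omega)).2.whole ?_ (hS.len (by omega))⟩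
        intro y hy z hlt
        obtain ⟨i, hi, hz⟩ := (hS.cov z).1 (hP2.good.lt_len _ _ hlt).2
        by_cases hin : i = n
        · rwa [← hin]
        · exact absurd hlt (hS.nb n (by omega) i hi (by simp; omega) y hy z hz)
      · refine Or.inl ⟨F, C, cols P, hS, fun i h1 h2 => ⟨?_, (hC i h1 h2).2⟩⟩
        exact Finset.eq_of_subset_of_card_le (hS.sub_cols h2) (by have := (hC i h1 h2).1; omega)

end Pool.Agent.Helper26.SQ
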