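import Pool.Agent.Helper26.SQ.Coarse

/-!
T4: the total number of colours in width `2 k`.
-/

set_option autoImplicit false

namespace Pool.Agent.Helper26.SQ

open Pool.Agent.Helper3.DW

namespace V4

/-- Blocks: `0` the low part, `1` the region, `2` the part above the cut. -/
def R0 (a b : ℕ) : Bool := b == 2 && (a == 0 || a == 1)
def S0 (a b : ℕ) : Bool := (a == 1 && b == 0) || (a == 2 && (b == 0 || b == 1))
def D1 (a : ℕ) : Bool := a == 0 || a == 1
def U1 (a : ℕ) : Bool := a == 2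
def T1 (a b : ℕ) : Bool := a == 1 && b == 0
/-- After the top structure: `3` is its lower part, `4` its upper part. -/
def R1 : ℕ → ℕ → Bool := catR 3 R0 ff D1 U1
def S1 : ℕ → ℕ → Bool := catS 3 S0 T1 D1 U1
def D2 (a : ℕ) : Bool := a == 0 || a == 1
def U2 (a : ℕ) : Bool := a == 2 || a == 4
/-- After the block `5`. -/
def R2 : ℕ → ℕ → Bool := catR 5 R1 ff D2 U2
def S2 : ℕ → ℕ → Bool := catS 5 S1 ff D2 U2
def D3 (a : ℕ) : Bool := a == 0
def U3 (a : ℕ) : Bool := a == 2 || a == 3 || a == 4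
def U4 (a : ℕ) : Bool := a == 2 || a == 4 || a == 5
/-- After the last block `6`. -/
def R3 : ℕ → ℕ → Bool := catR 6 R2 ff D3 U3
def S3 : ℕ → ℕ → Bool := catS 6 S2 ff D3 U3
def R4 : ℕ → ℕ → Bool := catR 6 R2 ff D3 U4
def S4 : ℕ → ℕ → Bool := catS 6 S2 ff D3 U4
def K0 (a : ℕ) : Bool := a == 1
def g4 (a : ℕ) : ℕ := if a == 0 || a == 1 || a == 3 then 0 else if a == 2 then 2 else 1

end V4

open V4

theorem st_vlem : ST_vlem := by
  intro k m v g hv hT
  by_contra hn
  set Q : Ps → Prop := fun P => 3 * v + g ≤ (cols P).card with hQ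
  have hb : ∀ P, Safe (2 * k) m Q P → (cols P).card < 3 * v + g := fun P h => not_le.1 h.not
  set p : ℕ → Prop := fun x => ∃ P, Safe (2 * k) m Q P ∧ ∃ F C : ℕ → Finset ℕ,
    Sys P 3 F C R0 S0 ∧ Wd P (F 1) k ∧ x ≤ (C 1).card with hp
  have p0 : p 0 := by
    refine ⟨[], ⟨inv_nil _ _, hn⟩, fun _ => ∅, fun _ => ∅, ⟨?_, ?_, ?_, ?_, ?_⟩, wd_empty _ _,
      Nat.zero_le _⟩
    · intro x; simp
    · intro a _ b _ x hx; simp at hx
    · intro a _; simp [colU]
    · intro a _ b _ _ x hx; simp at hx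
    · intro a _ b _ _ x hx; simp at hx
  obtain ⟨x, hx, hx'⟩ : ∃ x, p x ∧ ¬ p (x + 1) := by
    by_contra hc
    push Not at hc
    have : ∀ x, p x := fun x => Nat.rec p0 (fun y hy => hc y hy) x
    obtain ⟨P, hP, F, C, hS, _, h2⟩ := this (3 * v + g)
    have h3 := Finset.card_le_card (hS.sub_cols (a := 1) (by omega))
    have h4 := hb P hP
    omega
  obtain ⟨P, hP, F, C, hS, hW, hxC⟩ := hx
  have hxC' : (C 1).card ≤ x := by
    by_contra hc
    exact hx' ⟨P, hP, F, C, hS, hW, by omega⟩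
  have hK0 : ∀ a < 3, K0 a = true → Wd P (F a) k := by
    intro a _ ha
    simp only [K0, beq_iff_eq] at ha
    rw [ha]; exact hW
  -- the top structure
  have hh1 : IsHole (2 * k) (2 * k) P (un 3 F D1) (un 3 F U1) :=
    hS.hole D1 U1 (by decide) (by decide) (by decide)
      (by rw [un_none (by decide)]; exact wd_empty _ 0) (by omega) hP.inv.good.lt_len
  obtain ⟨Qt, hQt, hQtI, hP1⟩ := hP.ins hh1 (hT (3 * v + g))
  have hb1 := hb _ hP1
  rcases hQt with hQt | hQt
  swap
  · have := Finset.card_le_card (cols_glue_new P Qt (un 3 F D1) (un 3 F U1))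
    omega
  obtain ⟨Ft, Ct, hSt, hW0, hW1, hCt, hgt⟩ := hQt
  have hS1 : Sys _ 5 _ _ R1 S1 := hS.glu (S2 := T1) hSt D1 U1 hP.inv.good.lt_len hQtI.good.lt_len
  have hK1 := hS.wdK (Q := Qt) (q2 := 2) (F2 := Ft) (K2 := tt) (D := un 3 F D1) (U := un 3 F U1)
    hK0 (by
      intro a ha _
      obtain rfl | rfl : a = 0 ∨ a = 1 := by omega
      · exact hW0
      · exact hW1)
  set P1 := glue P (un 3 F D1) (un 3 F U1) Qt with hP1d
  set F1 := catF 3 P.length F Ft
  -- the block `B`
  have hN2 : Wd P1 (un 5 F1 (fun a => !D2 a && !U2 a)) k :=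
    hS1.wdA hK1 _ (by decide) (by decide)
  have hh2 : IsHole (2 * k) k P1 (un 5 F1 D2) (un 5 F1 U2) :=
    hS1.hole D2 U2 (by decide) (by decide) (by decide) hN2 (by omega) hP1.inv.good.lt_len
  obtain ⟨QB, hQB, hQBI, hP2⟩ := hP1.ins hh2 hv
  have hS2 : Sys _ 6 _ _ R2 S2 := hS1.glu (sys_one' QB) D2 U2 hP1.inv.good.lt_len
    hQBI.good.lt_len
  have hK2 := hS1.wdK (Q := QB) (q2 := 1) (F2 := fun _ => Finset.range QB.length) (K2 := tt)
    (D := un 5 F1 D2) (U := un 5 F1 U2) hK1 (fun _ _ _ => wd_range hQBI.good)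
  set P2 := glue P1 (un 5 F1 D2) (un 5 F1 U2) QB with hP2d
  set F2 := catF 5 P1.length F1 (fun _ => Finset.range QB.length)
  -- the block `Z`
  have hN3 : Wd P2 (un 6 F2 (fun a => !D3 a && !U3 a)) k :=
    hS2.wdA hK2 _ (by decide) (by decide)
  have hh3 : IsHole (2 * k) k P2 (un 6 F2 D3) (un 6 F2 U3) :=
    hS2.hole D3 U3 (by decide) (by decide) (by decide) hN3 (by omega) hP2.inv.good.lt_len
  obtain ⟨QZ, hQZ, hQZI, hP3⟩ := hP2.ins hh3 hv
  have hS3 : Sys _ 7 _ _ R3 S3 := hS2.glu (sys_one' QZ) D3 U3 hP2.inv.good.lt_len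
    hQZI.good.lt_len
  have hb3 := hb _ hP3
  have z1 := hS3.disj hP3.inv (a := 6) (b := 1) (by omega) (by omega) (by omega) (by decide)
    (by decide)
  have z2 := hS3.disj hP3.inv (a := 6) (b := 5) (by omega) (by omega) (by omega) (by decide)
    (by decide)
  have s1 := hS3.sub_cols (a := 1) (by omega)
  have s5 := hS3.sub_cols (a := 5) (by omega)
  have s6 := hS3.sub_cols (a := 6) (by omega)
  -- the block `E`
  have hN4 : Wd P2 (un 6 F2 (fun a => !D3 a && !U4 a)) k :=
    hS2.wdA hK2 _ (by decide) (by decide)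
  have hh4 : IsHole (2 * k) k P2 (un 6 F2 D3) (un 6 F2 U4) :=
    hS2.hole D3 U4 (by decide) (by decide) (by decide) hN4 (by omega) hP2.inv.good.lt_len
  obtain ⟨QE, hQE, hQEI, hP4⟩ := hP2.ins hh4 hv
  have hS4 : Sys _ 7 _ _ R4 S4 := hS2.glu (sys_one' QE) D3 U4 hP2.inv.good.lt_len
    hQEI.good.lt_len
  have hK4 := hS2.wdK (Q := QE) (q2 := 1) (F2 := fun _ => Finset.range QE.length) (K2 := tt)
    (D := un 6 F2 D3) (U := un 6 F2 U4) hK2 (fun _ _ _ => wd_range hQEI.good)
  have e1 := hS4.disj hP4.inv (a := 5) (b := 3) (by omega) (by omega) (by omega) (by decide)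
    (by decide)
  have e2 := hS4.disj hP4.inv (a := 6) (b := 3) (by omega) (by omega) (by omega) (by decide)
    (by decide)
  have e3 := hS4.disj hP4.inv (a := 6) (b := 1) (by omega) (by omega) (by omega) (by decide)
    (by decide)
  have hS5 := hS4.coarse (R' := R0) (S' := S0) (q' := 3) g4 (by decide) (by decide) (by decide)
  have hW5 := hS4.wdA hK4 (fun a => g4 a == 1) (by decide) (by decide)
  have hx5 : (un 7 (catC 6 (catC 5 (catC 3 C Ct) (fun _ => cols QB)) (fun _ => cols QE))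
      (fun a => g4 a == 1)).card ≤ x := by
    by_contra hc
    exact hx' ⟨_, hP4, _, _, hS5, hW5, by omega⟩
  have hsub : Ct 1 ∪ (cols QB ∪ cols QE) ⊆ un 7 (catC 6 (catC 5 (catC 3 C Ct)
      (fun _ => cols QB)) (fun _ => cols QE)) (fun a => g4 a == 1) := by
    intro c hc
    rw [mem_un]
    rcases Finset.mem_union.1 hc with hc | hc
    · exact ⟨4, by omega, by decide, by simpa [catC] using hc⟩
    · rcases Finset.mem_union.1 hc with hc | hc
      · exact ⟨5, by omega, by decide, by simpa [catC] using hc⟩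
      · exact ⟨6, by omega, by decide, by simpa [catC] using hc⟩
  have t1 := Finset.card_le_card hsub
  simp only [catC] at z1 z2 s1 s5 s6 e1 e2 e3
  norm_num at z1 z2 s1 s5 s6 e1 e2 e3
  have u1 : ((C 1 ∪ cols QB) ∪ cols QZ).card ≤ (cols (glue P2 (un 6 F2 D3) (un 6 F2 U3) QZ)).card :=
    Finset.card_le_card (Finset.union_subset (Finset.union_subset s1 s5) s6)
  rw [Finset.card_union_of_disjoint (by
    rw [Finset.disjoint_union_left]; exact ⟨z1.symm, z2.symm⟩)] at u1
  have u2 : (C 1 ∪ cols QB).card = (C 1).card + (cols QB \ C 1).card := by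
    rw [← Finset.union_sdiff_self_eq_union, Finset.card_union_of_disjoint Finset.disjoint_sdiff]
  have u3 : (cols QB ∩ C 1).card + (cols QB \ C 1).card = (cols QB).card :=
    Finset.card_inter_add_card_sdiff _ _
  have u4 : (Ct 1 ∪ (cols QB ∪ cols QE)).card = (Ct 1).card + (cols QB ∪ cols QE).card := by
    refine Finset.card_union_of_disjoint ?_
    rw [Finset.disjoint_union_right]
    exact ⟨(e1.mono_right hCt).symm, (e2.mono_right hCt).symm⟩
  have u5 : (cols QE ∪ (cols QB ∩ C 1)).card ≤ (cols QB ∪ cols QE).card := by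
    refine Finset.card_le_card ?_
    refine Finset.union_subset Finset.subset_union_right
      (Finset.inter_subset_left.trans Finset.subset_union_left)
  rw [Finset.card_union_of_disjoint (e3.mono_right Finset.inter_subset_right)] at u5
  have hQB' : v ≤ (cols QB).card := hQB
  have hQE' : v ≤ (cols QE).card := hQE
  have hQZ' : v ≤ (cols QZ).card := hQZ
  omega

end Pool.Agent.Helper26.SQ
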