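import Pool.Agent.Helper3.DW.Final

/-!
Positions of the game described by blocks: a position is divided into blocks, with a table of
relations between the blocks; a new block is glued into a hole described by its blocks.
-/

set_option autoImplicit false

namespace Pool.Agent.Helper26.SQ

open Pool.Agent.Helper3.DW

/-- The width of the set `Y` is at most `k`. -/
def Wd (P : Ps) (Y : Finset ℕ) (k : ℕ) : Prop :=
  ∀ s ⊆ Y, (∀ i ∈ s, ∀ j ∈ s, ¬ plt P i j) → s.card ≤ k

theorem Wd.mono {P : Ps} {Y Z : Finset ℕ} {k l : ℕ} (h : Wd P Z k) (hY : Y ⊆ Z) (hk : k ≤ l) :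
    Wd P Y l := fun s hs ha => (h s (hs.trans hY) ha).trans hk

theorem wd_empty (P : Ps) (k : ℕ) : Wd P ∅ k := by
  intro s hs _
  rw [Finset.subset_empty.1 hs]
  simp

theorem wd_range {P : Ps} {k : ℕ} (h : Good k P) : Wd P (Finset.range P.length) k :=
  fun s hs ha => h.width s (fun i hi => Finset.mem_range.1 (hs hi)) ha

theorem Wd.add {P : Ps} {Y Z : Finset ℕ} {k l : ℕ} (hY : Wd P Y k) (hZ : Wd P Z l) :
    Wd P (Y ∪ Z) (k + l) := by
  intro s hs ha
  have h1 := hY (s.filter (· ∈ Y)) (fun i hi => (Finset.mem_filter.1 hi).2)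
    (fun i hi j hj => ha i (Finset.mem_filter.1 hi).1 j (Finset.mem_filter.1 hj).1)
  have h2 := hZ (s.filter (fun i => ¬ i ∈ Y)) (fun i hi => by
      rcases Finset.mem_union.1 (hs (Finset.mem_filter.1 hi).1) with h | h
      · exact absurd h (Finset.mem_filter.1 hi).2
      · exact h)
    (fun i hi j hj => ha i (Finset.mem_filter.1 hi).1 j (Finset.mem_filter.1 hj).1)
  have h3 : (s.filter (· ∈ Y)).card + (s.filter (fun i => ¬ i ∈ Y)).card = s.card :=
    Finset.card_filter_add_card_filter_not _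
  omega

/-- A linear sum. -/
theorem Wd.lin {P : Ps} {Y Z : Finset ℕ} {k : ℕ} (hY : Wd P Y k) (hZ : Wd P Z k)
    (h : ∀ y ∈ Y, ∀ z ∈ Z, plt P y z) : Wd P (Y ∪ Z) k := by
  intro s hs ha
  by_cases h1 : ∃ y ∈ s, y ∈ Y
  · obtain ⟨y, hy, hy'⟩ := h1
    refine hY s (fun z hz => ?_) ha
    rcases Finset.mem_union.1 (hs hz) with h2 | h2
    · exact h2
    · exact absurd (h y hy' z h2) (ha y hy z hz)
  · push Not at h1
    refine hZ s (fun z hz => ?_) ha
    rcases Finset.mem_union.1 (hs hz) with h2 | h2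
    · exact absurd h2 (h1 z hz)
    · exact h2

/-- The union of the blocks with `A a`. -/
def un (q : ℕ) (F : ℕ → Finset ℕ) (A : ℕ → Bool) : Finset ℕ :=
  ((Finset.range q).filter (fun a => A a = true)).biUnion F

theorem mem_un {q : ℕ} {F : ℕ → Finset ℕ} {A : ℕ → Bool} {x : ℕ} :
    x ∈ un q F A ↔ ∃ a, a < q ∧ A a = true ∧ x ∈ F a := by
  simp only [un, Finset.mem_biUnion, Finset.mem_filter, Finset.mem_range, and_assoc]

/-- A description of a position: `q` blocks `F a` with the sets of colours `C a`; `R a b` says that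
all the points of block `a` are below all the points of block `b`, and `S a b` says that no point of
block `a` is below a point of block `b`. -/
structure Sys (P : Ps) (q : ℕ) (F C : ℕ → Finset ℕ) (R S : ℕ → ℕ → Bool) : Prop where
  cov : ∀ x, x < P.length ↔ ∃ a < q, x ∈ F a
  dj : ∀ a < q, ∀ b < q, ∀ x, x ∈ F a → x ∈ F b → a = b
  col : ∀ a < q, colU P (F a) = C a
  lt : ∀ a < q, ∀ b < q, R a b = true → ∀ x ∈ F a, ∀ y ∈ F b, plt P x y
  nb : ∀ a < q, ∀ b < q, S a b = true → ∀ x ∈ F a, ∀ y ∈ F b, ¬ plt P x y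

section Sys

variable {P : Ps} {q : ℕ} {F C : ℕ → Finset ℕ} {R S : ℕ → ℕ → Bool}

theorem Sys.len (h : Sys P q F C R S) {a : ℕ} (ha : a < q) : ∀ x ∈ F a, x < P.length :=
  fun x hx => (h.cov x).2 ⟨a, ha, hx⟩

theorem Sys.un_len (h : Sys P q F C R S) {A : ℕ → Bool} : ∀ x ∈ un q F A, x < P.length := by
  intro x hx
  obtain ⟨a, ha, _, hx⟩ := mem_un.1 hx
  exact h.len ha x hx

theorem Sys.mem_un_iff (h : Sys P q F C R S) {A : ℕ → Bool} {a : ℕ} (ha : a < q) {x : ℕ}
    (hx : x ∈ F a) : x ∈ un q F A ↔ A a = true := by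
  rw [mem_un]
  constructor
  · rintro ⟨b, hb, hA, hx'⟩
    rwa [h.dj a ha b hb x hx hx']
  · exact fun hA => ⟨a, ha, hA, hx⟩

/-- The colours of a union of blocks. -/
theorem Sys.colU_un (h : Sys P q F C R S) (A : ℕ → Bool) : colU P (un q F A) = un q C A := by
  ext c
  rw [mem_colU, mem_un]
  constructor
  · rintro ⟨i, hi, hc⟩
    obtain ⟨a, ha, hA, hi⟩ := mem_un.1 hi
    refine ⟨a, ha, hA, ?_⟩
    rw [← h.col a ha]
    exact mem_colU.2 ⟨i, hi, hc⟩
  · rintro ⟨a, ha, hA, hc⟩
    rw [← h.col a ha] at hc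
    obtain ⟨i, hi, hc⟩ := mem_colU.1 hc
    exact ⟨i, mem_un.2 ⟨a, ha, hA, hi⟩, hc⟩

theorem Sys.sub_cols (h : Sys P q F C R S) {a : ℕ} (ha : a < q) : C a ⊆ cols P := by
  rw [← h.col a ha]
  exact colU_subset_cols _

/-- Incomparable blocks have disjoint sets of colours. -/
theorem Sys.disj {w m : ℕ} (h : Sys P q F C R S) (hI : Inv w m P) {a b : ℕ} (ha : a < q)
    (hb : b < q) (hab : a ≠ b) (h1 : S a b = true) (h2 : S b a = true) :
    Disjoint (C a) (C b) := by
  rw [← h.col a ha, ← h.col b hb]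
  refine hI.disj_colU (h.len ha) (h.len hb) fun x hx y hy => ⟨?_, h.nb a ha b hb h1 x hx y hy,
    h.nb b hb a ha h2 y hy x hx⟩
  rintro rfl
  exact hab (h.dj a ha b hb x hx hy)

/-- A union of blocks which are pairwise comparable. -/
theorem Sys.wd (h : Sys P q F C R S) {A : ℕ → Bool} {k : ℕ}
    (hA : ∀ a < q, ∀ b < q, A a = true → A b = true → a ≠ b → R a b = true ∨ R b a = true)
    (hW : ∀ a < q, A a = true → Wd P (F a) k) : Wd P (un q F A) k := by
  intro s hs ha
  by_cases hne : s.Nonempty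
  · obtain ⟨x, hx⟩ := hne
    obtain ⟨a, haq, haA, hxa⟩ := mem_un.1 (hs hx)
    refine hW a haq haA s (fun y hy => ?_) ha
    obtain ⟨b, hbq, hbA, hyb⟩ := mem_un.1 (hs hy)
    by_cases hab : a = b
    · rwa [hab]
    · rcases hA a haq b hbq haA hbA hab with h1 | h1
      · exact absurd (h.lt a haq b hbq h1 x hxa y hyb) (ha x hx y hy)
      · exact absurd (h.lt b hbq a haq h1 y hyb x hxa) (ha y hy x hx)
  · rw [Finset.not_nonempty_iff_eq_empty.1 hne]
    simp

/-- A hole described by blocks. -/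
theorem Sys.hole (h : Sys P q F C R S) {w i k : ℕ} (D U : ℕ → Bool)
    (c1 : ∀ a < q, ∀ b < q, D b = true → D a = false → S a b = true)
    (c2 : ∀ a < q, ∀ b < q, U a = true → U b = false → S a b = true)
    (c3 : ∀ a < q, ∀ b < q, D a = true → U b = true → R a b = true)
    (hN : Wd P (un q F (fun a => !D a && !U a)) i) (hi : i + k ≤ w) (hg : ∀ x y, plt P x y →
      x < P.length ∧ y < P.length) :
    IsHole w k P (un q F D) (un q F U) where
  dlen := h.un_len
  ulen := h.un_len
  down x d hxd hd := by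
    obtain ⟨a, ha, hx⟩ := (h.cov x).1 (hg x d hxd).1
    obtain ⟨b, hb, hD, hd⟩ := mem_un.1 hd
    by_cases hDa : D a = true
    · exact mem_un.2 ⟨a, ha, hDa, hx⟩
    · exact absurd hxd (h.nb a ha b hb (c1 a ha b hb hD (by simpa using hDa)) x hx d hd)
  up u y huy hu := by
    obtain ⟨b, hb, hy⟩ := (h.cov y).1 (hg u y huy).2
    obtain ⟨a, ha, hU, hu⟩ := mem_un.1 hu
    by_cases hUb : U b = true
    · exact mem_un.2 ⟨b, hb, hUb, hy⟩
    · exact absurd huy (h.nb a ha b hb (c2 a ha b hb hU (by simpa using hUb)) u hu y hy)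
  lt d hd u hu := by
    obtain ⟨a, ha, hD, hd⟩ := mem_un.1 hd
    obtain ⟨b, hb, hU, hu⟩ := mem_un.1 hu
    exact h.lt a ha b hb (c3 a ha b hb hD hU) d hd u hu
  cap s hs ha := by
    have h1 : s.card ≤ i := hN s (fun x hx => by
      obtain ⟨h1, h2, h3⟩ := hs x hx
      obtain ⟨a, ha, hxa⟩ := (h.cov x).1 h1
      rw [h.mem_un_iff ha hxa] at h2 h3 ⊢
      simp only [Bool.not_eq_true] at h2 h3
      simp [h2, h3]) ha
    omega

end Sys

/-- Concatenation of two families of blocks. -/
def catF (q n : ℕ) (F F2 : ℕ → Finset ℕ) (a : ℕ) : Finset ℕ :=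
  if a < q then F a else sh n (F2 (a - q))

/-- Concatenation of two families of sets of colours. -/
def catC (q : ℕ) (C C2 : ℕ → Finset ℕ) (a : ℕ) : Finset ℕ := if a < q then C a else C2 (a - q)

/-- The table of the relation `below` after gluing. -/
def catR (q : ℕ) (R R2 : ℕ → ℕ → Bool) (D U : ℕ → Bool) (a b : ℕ) : Bool :=
  if a < q then (if b < q then R a b else D a) else (if b < q then U b else R2 (a - q) (b - q))

/-- The table of the relation `never below` after gluing. -/
def catS (q : ℕ) (S S2 : ℕ → ℕ → Bool) (D U : ℕ → Bool) (a b : ℕ) : Bool :=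
  if a < q then (if b < q then S a b else !D a) else (if b < q then !U b else S2 (a - q) (b - q))

theorem Sys.glu {P Q : Ps} {q q2 : ℕ} {F C F2 C2 : ℕ → Finset ℕ} {R S R2 S2 : ℕ → ℕ → Bool}
    (h : Sys P q F C R S) (h2 : Sys Q q2 F2 C2 R2 S2) (D U : ℕ → Bool)
    (hP : ∀ x y, plt P x y → x < P.length ∧ y < P.length)
    (hQ : ∀ x y, plt Q x y → x < Q.length ∧ y < Q.length) :
    Sys (glue P (un q F D) (un q F U) Q) (q + q2) (catF q P.length F F2) (catC q C C2)
      (catR q R R2 D U) (catS q S S2 D U) := by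
  have hs := suffix_glue P (un q F D) (un q F U) Q
  have old : ∀ a < q, catF q P.length F F2 a = F a := fun a ha => if_pos ha
  have new : ∀ a, ¬ a < q → catF q P.length F F2 a = sh P.length (F2 (a - q)) :=
    fun a ha => if_neg ha
  constructor
  · intro x
    rw [glue_length]
    constructor
    · intro hx
      by_cases hx' : x < P.length
      · obtain ⟨a, ha, hxa⟩ := (h.cov x).1 hx'
        exact ⟨a, by omega, by rw [old a ha]; exact hxa⟩
      · obtain ⟨a, ha, hxa⟩ := (h2.cov (x - P.length)).1 (by omega)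
        refine ⟨q + a, by omega, ?_⟩
        rw [new _ (by omega), show q + a - q = a by omega]
        exact mem_sh.2 ⟨_, hxa, by omega⟩
    · rintro ⟨a, ha, hx⟩
      by_cases ha' : a < q
      · rw [old a ha'] at hx
        have := h.len ha' x hx
        omega
      · rw [new a ha'] at hx
        obtain ⟨j, hj, rfl⟩ := mem_sh.1 hx
        have := h2.len (a := a - q) (by omega) j hj
        omega
  · intro a ha b hb x hxa hxb
    by_cases ha' : a < q
    · rw [old a ha'] at hxa
      have h3 := h.len ha' x hxa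
      by_cases hb' : b < q
      · rw [old b hb'] at hxb
        exact h.dj a ha' b hb' x hxa hxb
      · rw [new b hb'] at hxb
        have := le_of_mem_sh hxb
        omega
    · rw [new a ha'] at hxa
      have h3 := le_of_mem_sh hxa
      by_cases hb' : b < q
      · rw [old b hb'] at hxb
        have := h.len hb' x hxb
        omega
      · rw [new b hb'] at hxb
        obtain ⟨j, hj, e1⟩ := mem_sh.1 hxa
        obtain ⟨j', hj', e2⟩ := mem_sh.1 hxb
        have e : j' = j := by omega
        rw [e] at hj'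
        have := h2.dj (a - q) (by omega) (b - q) (by omega) j hj hj'
        omega
  · intro a ha
    by_cases ha' : a < q
    · rw [old a ha', colU_suffix hs (h.len ha'), h.col a ha']
      exact (if_pos ha').symm
    · rw [new a ha', colU_sh_glue, h2.col (a - q) (by omega)]
      exact (if_neg ha').symm
  · intro a ha b hb hR x hx y hy
    by_cases ha' : a < q
    · rw [old a ha'] at hx
      by_cases hb' : b < q
      · rw [old b hb'] at hy
        simp only [catR, if_pos ha', if_pos hb'] at hR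
        exact (plt_suffix hs (h.len ha' x hx) (h.len hb' y hy)).2 (h.lt a ha' b hb' hR x hx y hy)
      · rw [new b hb'] at hy
        simp only [catR, if_pos ha', if_neg hb'] at hR
        obtain ⟨j, hj, rfl⟩ := mem_sh.1 hy
        exact (plt_glue _ _ _ _ _ _).2 (Or.inr (Or.inr (Or.inl ⟨mem_un.2 ⟨a, ha', hR, hx⟩, j,
          h2.len (by omega) j hj, rfl⟩)))
    · rw [new a ha'] at hx
      obtain ⟨i, hi, rfl⟩ := mem_sh.1 hx
      by_cases hb' : b < q
      · rw [old b hb'] at hy
        simp only [catR, if_neg ha', if_pos hb'] at hR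
        exact (plt_glue _ _ _ _ _ _).2 (Or.inr (Or.inr (Or.inr ⟨mem_un.2 ⟨b, hb', hR, hy⟩, i,
          h2.len (by omega) i hi, rfl⟩)))
      · rw [new b hb'] at hy
        obtain ⟨j, hj, rfl⟩ := mem_sh.1 hy
        simp only [catR, if_neg ha', if_neg hb'] at hR
        exact (plt_glue _ _ _ _ _ _).2 (Or.inr (Or.inl ⟨i, j, rfl, rfl,
          h2.lt _ (by omega) _ (by omega) hR i hi j hj⟩))
  · intro a ha b hb hS x hx y hy hlt
    by_cases ha' : a < q
    · rw [old a ha'] at hx
      have lx := h.len ha' x hx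
      by_cases hb' : b < q
      · rw [old b hb'] at hy
        simp only [catS, if_pos ha', if_pos hb'] at hS
        exact h.nb a ha' b hb' hS x hx y hy ((plt_suffix hs lx (h.len hb' y hy)).1 hlt)
      · rw [new b hb'] at hy
        simp only [catS, if_pos ha', if_neg hb'] at hS
        obtain ⟨j, hj, rfl⟩ := mem_sh.1 hy
        rcases (plt_glue _ _ _ _ _ _).1 hlt with h3 | ⟨i', j', h3, h4, h5⟩ | ⟨h3, j', h4, h5⟩ |
          ⟨h3, i', h4, h5⟩
        · have := (hP _ _ h3).2; omega
        · omega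
        · rw [h.mem_un_iff ha' hx] at h3
          simp [h3] at hS
        · omega
    · rw [new a ha'] at hx
      obtain ⟨i, hi, rfl⟩ := mem_sh.1 hx
      by_cases hb' : b < q
      · rw [old b hb'] at hy
        have ly := h.len hb' y hy
        simp only [catS, if_neg ha', if_pos hb'] at hS
        rcases (plt_glue _ _ _ _ _ _).1 hlt with h3 | ⟨i', j', h3, h4, h5⟩ | ⟨h3, j', h4, h5⟩ |
          ⟨h3, i', h4, h5⟩
        · have := (hP _ _ h3).1; omega
        · omega
        · omega
        · rw [h.mem_un_iff hb' hy] at h3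
          simp [h3] at hS
      · rw [new b hb'] at hy
        obtain ⟨j, hj, rfl⟩ := mem_sh.1 hy
        simp only [catS, if_neg ha', if_neg hb'] at hS
        rcases (plt_glue _ _ _ _ _ _).1 hlt with h3 | ⟨i', j', h3, h4, h5⟩ | ⟨h3, j', h4, h5⟩ |
          ⟨h3, i', h4, h5⟩
        · have := (hP _ _ h3).1; omega
        · have e1 : i' = i := by omega
          have e2 : j' = j := by omega
          subst e1 e2
          exact h2.nb _ (by omega) _ (by omega) hS _ hi _ hj h5
        · have := h.un_len _ h3; omega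
        · have := h.un_len _ h3; omega

/-- The width of a set of old points does not change. -/
theorem Wd.old {P P' : Ps} {Y : Finset ℕ} {k : ℕ} (h : Wd P Y k) (hs : P <:+ P')
    (hY : ∀ y ∈ Y, y < P.length) : Wd P' Y k := by
  intro s hs' ha
  refine h s hs' fun i hi j hj hlt => ha i hi j hj ?_
  exact (plt_suffix hs (hY i (hs' hi)) (hY j (hs' hj))).2 hlt

/-- The width of a set of new points. -/
theorem Wd.new {P Q : Ps} {D U Y : Finset ℕ} {k : ℕ} (h : Wd Q Y k) :
    Wd (Pool.Agent.Helper3.DW.glue P D U Q) (sh P.length Y) k := by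
  intro s hs ha
  have h1 := h (s.image (fun x => x - P.length)) (by
    intro x hx
    obtain ⟨y, hy, rfl⟩ := Finset.mem_image.1 hx
    obtain ⟨j, hj, rfl⟩ := mem_sh.1 (hs hy)
    simpa using hj) (by
    intro i hi j hj hlt
    obtain ⟨y, hy, rfl⟩ := Finset.mem_image.1 hi
    obtain ⟨z, hz, rfl⟩ := Finset.mem_image.1 hj
    obtain ⟨y', hy', rfl⟩ := mem_sh.1 (hs hy)
    obtain ⟨z', hz', rfl⟩ := mem_sh.1 (hs hz)
    refine ha _ hy _ hz ((plt_glue _ _ _ _ _ _).2 (Or.inr (Or.inl ⟨y', z', rfl, rfl, ?_⟩)))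
    simpa using hlt)
  have h3 : (s.image (fun x => x - P.length)).card = s.card := by
    refine Finset.card_image_of_injOn ?_
    intro x hx y hy hxy
    have e1 := le_of_mem_sh (hs hx)
    have e2 := le_of_mem_sh (hs hy)
    simp only at hxy
    omega
  omega

/-! ### safe positions -/

/-- The adversary cannot force `Q` from `P`. -/
structure Safe (w m : ℕ) (Q : Ps → Prop) (P : Ps) : Prop where
  inv : Inv w m P
  nf : ¬ Force w m Q P

theorem Safe.not {w m : ℕ} {Q : Ps → Prop} {P : Ps} (h : Safe w m Q P) : ¬ Q P :=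
  fun hQ => h.nf (Force.here P hQ)

theorem Safe.ins {w k m : ℕ} {Q Q2 : Ps → Prop} {P : Ps} {D U : Finset ℕ} (h : Safe w m Q P)
    (hh : IsHole w k P D U) (hF : Force k m Q2 []) :
    ∃ R, Q2 R ∧ Inv k m R ∧ Safe w m Q (Pool.Agent.Helper3.DW.glue P D U R) := by
  by_contra hn
  push Not at hn
  refine h.nf ((Force.hole0 h.inv hh hF).bind fun P' hP' => ?_)
  obtain ⟨h1, R, h2, h3, rfl⟩ := hP'
  by_contra h4
  exact hn R h2 h3 ⟨h1, h4⟩

/-- The system with one block. -/
theorem sys_one (P : Ps) : Sys P 1 (fun _ => Finset.range P.length) (fun _ => cols P)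
    (fun _ _ => false) (fun _ _ => false) where
  cov x := by simp
  dj a ha b hb x _ _ := by omega
  col a ha := rfl
  lt a ha b hb h := by simp at h
  nb a ha b hb h := by simp at h

end Pool.Agent.Helper26.SQ
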