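import Pool.Agent.Helper26.SQ.Stmts

/-!
Coarser descriptions; widths of blocks after gluing.
-/

set_option autoImplicit false

namespace Pool.Agent.Helper26.SQ

open Pool.Agent.Helper3.DW

/-- Blocks are united: block `a` goes to block `g a`. -/
theorem Sys.coarse {P : Ps} {q q' : ℕ} {F C : ℕ → Finset ℕ} {R S R' S' : ℕ → ℕ → Bool}
    (h : Sys P q F C R S) (g : ℕ → ℕ) (hg : ∀ a < q, g a < q')
    (hR : ∀ a < q, ∀ b < q, R' (g a) (g b) = true → R a b = true)
    (hS : ∀ a < q, ∀ b < q, S' (g a) (g b) = true → S a b = true) :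
    Sys P q' (fun c => un q F (fun a => g a == c)) (fun c => un q C (fun a => g a == c)) R' S' where
  cov x := by
    rw [h.cov x]
    constructor
    · rintro ⟨a, ha, hx⟩
      exact ⟨g a, hg a ha, mem_un.2 ⟨a, ha, by simp, hx⟩⟩
    · rintro ⟨c, _, hx⟩
      obtain ⟨a, ha, _, hx⟩ := mem_un.1 hx
      exact ⟨a, ha, hx⟩
  dj c _ d _ x hx hy := by
    obtain ⟨a, ha, hac, hx⟩ := mem_un.1 hx
    obtain ⟨b, hb, hbd, hy⟩ := mem_un.1 hy
    have := h.dj a ha b hb x hx hy
    subst this
    simp only [beq_iff_eq] at hac hbd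
    omega
  col c _ := h.colU_un _
  lt c _ d _ hcd x hx y hy := by
    obtain ⟨a, ha, hac, hx⟩ := mem_un.1 hx
    obtain ⟨b, hb, hbd, hy⟩ := mem_un.1 hy
    simp only [beq_iff_eq] at hac hbd
    rw [← hac, ← hbd] at hcd
    exact h.lt a ha b hb (hR a ha b hb hcd) x hx y hy
  nb c _ d _ hcd x hx y hy := by
    obtain ⟨a, ha, hac, hx⟩ := mem_un.1 hx
    obtain ⟨b, hb, hbd, hy⟩ := mem_un.1 hy
    simp only [beq_iff_eq] at hac hbd
    rw [← hac, ← hbd] at hcd
    exact h.nb a ha b hb (hS a ha b hb hcd) x hx y hy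

/-- Concatenation of tables of blocks of small width. -/
def catK (q : ℕ) (K K2 : ℕ → Bool) (a : ℕ) : Bool := if a < q then K a else K2 (a - q)

theorem Sys.wdK {P Q : Ps} {q q2 k : ℕ} {F C F2 : ℕ → Finset ℕ} {R S : ℕ → ℕ → Bool}
    {K K2 : ℕ → Bool} {D U : Finset ℕ}
    (h : Sys P q F C R S) (h1 : ∀ a < q, K a = true → Wd P (F a) k)
    (h2 : ∀ a < q2, K2 a = true → Wd Q (F2 a) k) :
    ∀ a < q + q2, catK q K K2 a = true → Wd (glue P D U Q) (catF q P.length F F2 a) k := by
  intro a ha hK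
  by_cases ha' : a < q
  · simp only [catK, if_pos ha'] at hK
    simp only [catF, if_pos ha']
    exact (h1 a ha' hK).old (suffix_glue _ _ _ _) (h.len ha')
  · simp only [catK, if_neg ha'] at hK
    simp only [catF, if_neg ha']
    exact Wd.new (h2 _ (by omega) hK)

/-- A union of comparable blocks of small width. -/
theorem Sys.wdA {P : Ps} {q k : ℕ} {F C : ℕ → Finset ℕ} {R S : ℕ → ℕ → Bool}
    {K : ℕ → Bool} (h : Sys P q F C R S) (hK : ∀ a < q, K a = true → Wd P (F a) k)
    (A : ℕ → Bool)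
    (hA : ∀ a < q, ∀ b < q, (A a && (A b && !(a == b))) = true → (R a b || R b a) = true)
    (hAK : ∀ a < q, A a = true → K a = true) : Wd P (un q F A) k :=
  h.wd (fun a ha b hb h1 h2 h3 => by
    have := hA a ha b hb (by simp [h1, h2, h3])
    simpa using this) fun a ha hAa => hK a ha (hAK a ha hAa)

/-- The relations inside one new block are not recorded. -/
def ff (_ _ : ℕ) : Bool := false

theorem sys_one' (P : Ps) : Sys P 1 (fun _ => Finset.range P.length) (fun _ => cols P) ff ff :=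
  sys_one P

/-- All blocks. -/
def tt (_ : ℕ) : Bool := true

end Pool.Agent.Helper26.SQ
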