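import Pool.Agent.Helper26.SQ.Basic

/-!
Blocks with a large upper part, repeated blocks, the top structure; facts on gluing on the top.
-/

set_option autoImplicit false

namespace Pool.Agent.Helper26.SQ

open Pool.Agent.Helper3.DW

/-- The set `N` contains an upset `C` of width at most `j` with `a ≤ |N| + 3 |C|` and `b ≤ |C|`,
where `|.|` is the number of colours. -/
def Blk (j a b : ℕ) (P : Ps) (N : Finset ℕ) : Prop :=
  ∃ C ⊆ N, (∀ y ∈ C, ∀ z ∈ N, plt P y z → z ∈ C) ∧ Wd P C j ∧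
    a ≤ (colU P N).card + 3 * (colU P C).card ∧ b ≤ (colU P C).card

/-- The position is a linear sum of `n + 1` blocks, the blocks `1, …, n` have the same set of
colours and satisfy `Blk j a b`. -/
def RepQ (n j a b : ℕ) (P : Ps) : Prop :=
  ∃ (F C : ℕ → Finset ℕ) (T : Finset ℕ),
    Sys P (n + 1) F C (fun a b => decide (a < b)) (fun a b => decide (b < a)) ∧
    ∀ i, 1 ≤ i → i < n + 1 → C i = T ∧ Blk j a b P (F i)

/-- The position is the union of a downset (block `0`) and an upset (block `1`), both of width at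
most `k`; all the colours of the upset occur in the downset; the upset has `g` colours. -/
def TopQ (k g : ℕ) (P : Ps) : Prop :=
  ∃ F C : ℕ → Finset ℕ, Sys P 2 F C (fun _ _ => false) (fun a b => a == 1 && b == 0) ∧
    Wd P (F 0) k ∧ Wd P (F 1) k ∧ C 1 ⊆ C 0 ∧ g ≤ (C 1).card

/-- T1 -/
def ST_rep : Prop := ∀ (k m j a b : ℕ),
  Force k m (fun P => Blk j a b P (Finset.range P.length)) [] →
  ∀ n c : ℕ, Force k m (fun P => RepQ n j a b P ∨ c ≤ (cols P).card) []

/-- T2 -/
def ST_lemA : Prop := ∀ (j m v : ℕ), FG j m v →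
  Force (2 * j) m (fun P => Blk j (11 * v) (2 * v) P (Finset.range P.length)) []

/-- T3 -/
def ST_top : Prop := ∀ (k j m a b g : ℕ), 2 * j ≤ k →
  Force k m (fun P => Blk j a b P (Finset.range P.length)) [] → 4 * g ≤ a + 3 * b + 3 →
  ∀ M : ℕ, Force (k + j) m (fun P => TopQ k g P ∨ M ≤ (cols P).card) []

/-- T4 -/
def ST_vlem : Prop := ∀ (k m v g : ℕ), FG k m v →
  (∀ M : ℕ, Force (2 * k) m (fun P => TopQ k g P ∨ M ≤ (cols P).card) []) →
  FG (2 * k) m (3 * v + g)

/-- A description may be changed outside of its range. -/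
theorem Sys.congr {P : Ps} {q : ℕ} {F C F' C' : ℕ → Finset ℕ} {R S R' S' : ℕ → ℕ → Bool}
    (h : Sys P q F C R S) (hF : ∀ a < q, F' a = F a) (hC : ∀ a < q, C' a = C a)
    (hR : ∀ a < q, ∀ b < q, R' a b = true → R a b = true)
    (hS : ∀ a < q, ∀ b < q, S' a b = true → S a b = true) : Sys P q F' C' R' S' where
  cov x := by
    rw [h.cov x]
    constructor
    · rintro ⟨a, ha, hx⟩
      exact ⟨a, ha, by rwa [hF a ha]⟩
    · rintro ⟨a, ha, hx⟩
      exact ⟨a, ha, by rwa [← hF a ha]⟩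
  dj a ha b hb x hx hy := by
    rw [hF a ha] at hx
    rw [hF b hb] at hy
    exact h.dj a ha b hb x hx hy
  col a ha := by rw [hF a ha, hC a ha, h.col a ha]
  lt a ha b hb hab x hx y hy := by
    rw [hF a ha] at hx
    rw [hF b hb] at hy
    exact h.lt a ha b hb (hR a ha b hb hab) x hx y hy
  nb a ha b hb hab x hx y hy := by
    rw [hF a ha] at hx
    rw [hF b hb] at hy
    exact h.nb a ha b hb (hS a ha b hb hab) x hx y hy

theorem Sys.un_all {P : Ps} {q : ℕ} {F C : ℕ → Finset ℕ} {R S : ℕ → ℕ → Bool}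
    (h : Sys P q F C R S) {A : ℕ → Bool} (hA : ∀ a < q, A a = true) :
    un q F A = Finset.range P.length := by
  ext x
  rw [mem_un, Finset.mem_range, h.cov x]
  exact ⟨fun ⟨a, h1, _, h3⟩ => ⟨a, h1, h3⟩, fun ⟨a, h1, h3⟩ => ⟨a, h1, hA a h1, h3⟩⟩

theorem un_none {q : ℕ} {F : ℕ → Finset ℕ} {A : ℕ → Bool} (hA : ∀ a < q, A a = false) :
    un q F A = ∅ := by
  ext x
  rw [mem_un]
  constructor
  · rintro ⟨a, h1, h2, _⟩
    rw [hA a h1] at h2
    simp at h2
  · simp

theorem glt {w : ℕ} {P : Ps} (h : Good w P) : ∀ x y, plt P x y → x < P.length ∧ y < P.length :=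
  h.lt_len

/-- The whole position as a hole: everything new is put on the top. -/
theorem hole_top {w : ℕ} {P : Ps} (h : Good w P) : IsHole w w P (Finset.range P.length) ∅ where
  dlen d hd := Finset.mem_range.1 hd
  ulen u hu := by simp at hu
  down a d had _ := Finset.mem_range.2 (h.lt_len a d had).1
  up u b _ hu := by simp at hu
  lt d _ u hu := by simp at hu
  cap s hs _ := by
    have : s = ∅ := Finset.eq_empty_of_forall_notMem fun i hi =>
      (hs i hi).2.1 (Finset.mem_range.2 (hs i hi).1)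
    simp [this]

/-- The `Blk` property of a new block. -/
theorem Blk.new {j a b : ℕ} {P Q : Ps} {D U N : Finset ℕ} (h : Blk j a b Q N)
    (hP : ∀ x y, plt P x y → x < P.length ∧ y < P.length) (hD : ∀ d ∈ D, d < P.length)
    (hU : ∀ d ∈ U, d < P.length) : Blk j a b (glue P D U Q) (sh P.length N) := by
  obtain ⟨C, h1, h2, h3, h4, h5⟩ := h
  refine ⟨sh P.length C, ?_, ?_, Wd.new h3, ?_, ?_⟩
  · intro x hx
    obtain ⟨i, hi, rfl⟩ := mem_sh.1 hx
    exact add_mem_sh.2 (h1 hi)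
  · intro y hy z hz hlt
    obtain ⟨i, hi, rfl⟩ := mem_sh.1 hy
    obtain ⟨i', hi', rfl⟩ := mem_sh.1 hz
    rcases (plt_glue _ _ _ _ _ _).1 hlt with h6 | ⟨a, b, h6, h7, h8⟩ | ⟨h6, _⟩ | ⟨h6, _⟩
    · have := (hP _ _ h6).1; omega
    · have e1 : a = i := by omega
      have e2 : b = i' := by omega
      subst e1 e2
      exact add_mem_sh.2 (h2 _ hi _ hi' h8)
    · have := hD _ h6; omega
    · have := hU _ h6; omega
  · rw [colU_sh_glue, colU_sh_glue]
    exact h4
  · rw [colU_sh_glue]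
    exact h5

theorem colU_mono {P : Ps} {Y Z : Finset ℕ} (h : Y ⊆ Z) : colU P Y ⊆ colU P Z := by
  intro c hc
  obtain ⟨i, hi, hc⟩ := mem_colU.1 hc
  exact mem_colU.2 ⟨i, h hi, hc⟩

theorem cols_suffix {P P' : Ps} (h : P <:+ P') : cols P ⊆ cols P' := by
  intro c hc
  obtain ⟨i, hi, hc⟩ := mem_cols.1 hc
  have h1 := h.length_le
  exact mem_cols.2 ⟨i, by omega, by rwa [pcol_suffix h hi]⟩

theorem cols_glue_new (P Q : Ps) (D U : Finset ℕ) : cols Q ⊆ cols (glue P D U Q) := by
  intro c hc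
  obtain ⟨i, hi, hc⟩ := mem_cols.1 hc
  exact mem_cols.2 ⟨P.length + i, by rw [glue_length]; omega, by rwa [pcol_glue_new]⟩

/-- The top block determines `Blk` for the whole. -/
theorem Blk.whole {j a b : ℕ} {P : Ps} {N : Finset ℕ} (h : Blk j a b P N)
    (hN : ∀ y ∈ N, ∀ z, plt P y z → z ∈ N) (hl : ∀ y ∈ N, y < P.length) :
    Blk j a b P (Finset.range P.length) := by
  obtain ⟨C, h1, h2, h3, h4, h5⟩ := h
  have hr : N ⊆ Finset.range P.length := fun y hy => Finset.mem_range.2 (hl y hy)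
  have h6 := Finset.card_le_card (colU_mono (P := P) hr)
  exact ⟨C, h1.trans hr, fun y hy z _ hlt => h2 y hy z (hN y (h1 hy) z hlt) hlt, h3, by omega, h5⟩

end Pool.Agent.Helper26.SQ
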